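import Mathlib
import Pool.Agent.TH407.MZ.Defs
set_option autoImplicit false

namespace Pool.Agent.TH620.MZ

open MeasureTheory Set Complex
open scoped ENNReal NNReal Real ComplexConjugate ContDiff Topology
open Pool.Agent.TH407 Pool.Agent.TH407.MZ

theorem cd_etz : ContDiff ℝ ∞ etz := by
  unfold etz
  exact (Real.smoothTransition.contDiff.comp (by fun_prop)).mul
    (Real.smoothTransition.contDiff.comp (by fun_prop))

theorem etz_nonneg (h : ℝ) : 0 ≤ etz h :=
  mul_nonneg (Real.smoothTransition.nonneg _) (Real.smoothTransition.nonneg _)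

theorem etz_le_one (h : ℝ) : etz h ≤ 1 :=
  mul_le_one₀ (Real.smoothTransition.le_one _) (Real.smoothTransition.nonneg _)
    (Real.smoothTransition.le_one _)

theorem etz_zero_right {h : ℝ} (hh : 3 / 4 ≤ h) : etz h = 0 := by
  unfold etz
  rw [Real.smoothTransition.zero_of_nonpos (x := 3 - 4 * h) (by linarith), zero_mul]

theorem etz_zero_left {h : ℝ} (hh : h ≤ -(3 / 4)) : etz h = 0 := by
  unfold etz
  rw [Real.smoothTransition.zero_of_nonpos (x := 3 + 4 * h) (by linarith), mul_zero]

theorem etz_zero {h : ℝ} (hh : h ∉ Icc (-(3 / 4) : ℝ) (3 / 4)) : etz h = 0 := by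
  rw [mem_Icc, not_and_or, not_le, not_le] at hh
  rcases hh with hh | hh
  · exact etz_zero_left hh.le
  · exact etz_zero_right hh.le

/-- restriction of the integral to an interval -/
theorem int_etz (c : ℝ) (hc : 3 / 4 ≤ c) (F : ℝ → ℂ) :
    ∫ h : ℝ, (etz h : ℂ) * F h = ∫ h in (-c)..c, (etz h : ℂ) * F h := by
  rw [intervalIntegral.integral_of_le (by linarith), ← setIntegral_univ]
  apply setIntegral_eq_of_subset_of_forall_sdiff_eq_zero MeasurableSet.univ (subset_univ _)
  intro h hh
  have h1 : h ∉ Ioc (-c) c := hh.2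
  have h2 : etz h = 0 := by
    rw [mem_Ioc, not_and_or, not_lt, not_le] at h1
    rcases h1 with h1 | h1
    · exact etz_zero_left (by linarith)
    · exact etz_zero_right (by linarith)
  rw [h2]
  simp

theorem norm_exI (x : ℝ) : ‖cexp (-(I * (x : ℂ)))‖ = 1 := by
  have : -(I * (x : ℂ)) = ((-x : ℝ) : ℂ) * I := by push_cast; ring
  rw [this]
  exact Complex.norm_exp_ofReal_mul_I _

end Pool.Agent.TH620.MZ
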