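import Mathlib
import Pool.Agent.TH407.MZ.Defs
import Pool.Agent.TH620.MZ.Base
set_option autoImplicit false

namespace Pool.Agent.TH620.MZ

open MeasureTheory Set Complex
open scoped ENNReal NNReal Real ComplexConjugate ContDiff Topology
open Pool.Agent.TH407 Pool.Agent.TH407.MZ

theorem trivial_bd (t w : ℝ) : ‖KZ t w‖ ≤ 3 / 2 := by
  unfold KZ
  rw [int_etz (3 / 4) le_rfl]
  have h1 : ∀ h ∈ uIoc (-(3 / 4) : ℝ) (3 / 4),
      ‖(etz h : ℂ) * cexp (-(I * ((√(1 - h ^ 2) * w + h * t : ℝ) : ℂ)))‖ ≤ 1 := by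
    intro h _
    rw [norm_mul, norm_exI, mul_one, Complex.norm_real, Real.norm_eq_abs,
      abs_of_nonneg (etz_nonneg h)]
    exact etz_le_one h
  have h2 := intervalIntegral.norm_integral_le_of_norm_le_const h1
  have h3 : |(3 / 4 : ℝ) - -(3 / 4)| = 3 / 2 := by norm_num
  rw [h3] at h2
  linarith

/-- derivative of `√(1 - h²)` -/
theorem hd_k {h : ℝ} (hh : 0 < 1 - h ^ 2) :
    HasDerivAt (fun h : ℝ => √(1 - h ^ 2)) (-h / √(1 - h ^ 2)) h := by
  have h1 : HasDerivAt (fun h : ℝ => 1 - h ^ 2) (-(2 * h)) h := by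
    have := (hasDerivAt_pow 2 h).const_sub 1
    simpa using this
  refine (h1.sqrt hh.ne').congr_deriv ?_
  have : √(1 - h ^ 2) ≠ 0 := (Real.sqrt_pos.2 hh).ne'
  field_simp

/-- derivative of `h / √(1 - h²)` -/
theorem hd_hk {h : ℝ} (hh : 0 < 1 - h ^ 2) :
    HasDerivAt (fun h : ℝ => h / √(1 - h ^ 2)) (1 / √(1 - h ^ 2) ^ 3) h := by
  have hk : 0 < √(1 - h ^ 2) := Real.sqrt_pos.2 hh
  have hs : √(1 - h ^ 2) ^ 2 = 1 - h ^ 2 := Real.sq_sqrt hh.le
  refine ((hasDerivAt_id h).div (hd_k hh) hk.ne').congr_deriv ?_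
  simp only [id]
  field_simp
  linear_combination hs

theorem non_bd {C0 : ℝ} (hC0 : ∀ h ∈ Icc (-(3 / 4) : ℝ) (3 / 4), |deriv etz h| ≤ C0) {t w : ℝ}
    (ht : 1 ≤ |t|) (hw : 3 * |w| ≤ |t|) : ‖KZ t w‖ ≤ (3 * C0 + 8) / |t| := by
  have ht0 : 0 < |t| := by linarith
  unfold KZ
  rw [int_etz (3 / 4) le_rfl]
  set a : ℝ := -(3 / 4) with ha
  set b : ℝ := 3 / 4 with hb
  have hab : a ≤ b := by rw [ha, hb]; norm_num
  have hu : uIcc a b = Icc a b := uIcc_of_le hab
  -- elementary bounds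
  have hsq : ∀ h ∈ Icc a b, h ^ 2 ≤ 9 / 16 := by
    intro h hh
    have h1 : -(3 / 4) ≤ h := hh.1
    have h2 : h ≤ 3 / 4 := hh.2
    nlinarith
  have hpos : ∀ h ∈ Icc a b, 0 < 1 - h ^ 2 := fun h hh => by linarith [hsq h hh]
  have hk0 : ∀ h ∈ Icc a b, 0 < √(1 - h ^ 2) := fun h hh => Real.sqrt_pos.2 (hpos h hh)
  have hk1 : ∀ h ∈ Icc a b, 33 / 50 ≤ √(1 - h ^ 2) := by
    intro h hh
    apply Real.le_sqrt_of_sq_le
    have := hsq h hh
    norm_num
    linarith
  -- the phase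
  set q : ℝ → ℝ := fun h => √(1 - h ^ 2) * w + h * t with hq
  set q1 : ℝ → ℝ := fun h => t - w * (h / √(1 - h ^ 2)) with hq1
  set q2 : ℝ → ℝ := fun h => -(w * (1 / √(1 - h ^ 2) ^ 3)) with hq2
  have dq : ∀ h ∈ Icc a b, HasDerivAt q (q1 h) h := by
    intro h hh
    have h1 := ((hd_k (hpos h hh)).mul_const w).add ((hasDerivAt_id h).mul_const t)
    refine h1.congr_deriv ?_
    simp only [hq1]
    ring
  have dq1 : ∀ h ∈ Icc a b, HasDerivAt q1 (q2 h) h := by
    intro h hh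
    have h1 := ((hd_hk (hpos h hh)).const_mul w).const_sub t
    exact h1
  have bq1 : ∀ h ∈ Icc a b, |t| / 2 ≤ |q1 h| := by
    intro h hh
    have h1 : |h / √(1 - h ^ 2)| ≤ 3 / 2 := by
      rw [abs_div, abs_of_pos (hk0 h hh), div_le_iff₀ (hk0 h hh)]
      have h2 : |h| ≤ 3 / 4 := abs_le.2 ⟨hh.1, hh.2⟩
      have h3 := hk1 h hh
      linarith
    have h2 : |w * (h / √(1 - h ^ 2))| ≤ |t| / 2 := by
      rw [abs_mul]
      calc |w| * |h / √(1 - h ^ 2)| ≤ |w| * (3 / 2) :=
            mul_le_mul_of_nonneg_left h1 (abs_nonneg _)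
        _ ≤ |t| / 2 := by linarith
    have h3 : |t| - |w * (h / √(1 - h ^ 2))| ≤ |q1 h| := abs_sub_abs_le_abs_sub _ _
    linarith
  have q1n : ∀ h ∈ Icc a b, q1 h ≠ 0 := by
    intro h hh h0
    have := bq1 h hh
    rw [h0, abs_zero] at this
    linarith
  have bq2 : ∀ h ∈ Icc a b, |q2 h| ≤ 4 / 3 * |t| := by
    intro h hh
    have h1 : |1 / √(1 - h ^ 2) ^ 3| ≤ 4 := by
      have h3 := hk1 h hh
      have h4 : (33 / 50 : ℝ) ^ 3 ≤ √(1 - h ^ 2) ^ 3 := pow_le_pow_left₀ (by norm_num) h3 3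
      rw [abs_of_pos (by have := hk0 h hh; positivity), div_le_iff₀ (pow_pos (hk0 h hh) 3)]
      norm_num at h4 ⊢
      linarith
    simp only [hq2]
    rw [abs_neg, abs_mul]
    calc |w| * |1 / √(1 - h ^ 2) ^ 3| ≤ |w| * 4 := mul_le_mul_of_nonneg_left h1 (abs_nonneg _)
      _ ≤ 4 / 3 * |t| := by linarith
  -- the exponential
  set e : ℝ → ℂ := fun h => cexp (-(I * ((q h : ℝ) : ℂ))) with he
  have hed : ∀ h ∈ Icc a b, HasDerivAt e (e h * (-(I * ((q1 h : ℝ) : ℂ)))) h := by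
    intro h hh
    have h1 := (dq h hh).ofReal_comp
    exact ((h1.const_mul I).neg).cexp
  have dz : ∀ h, HasDerivAt etz (deriv etz h) h := fun h =>
    ((cd_etz.differentiable (by simp)) h).hasDerivAt
  have cz : Continuous (deriv etz) := ((contDiff_infty_iff_deriv.1 cd_etz).2).continuous
  set G : ℝ → ℝ := fun h => (deriv etz h * q1 h - etz h * q2 h) / q1 h ^ 2 with hG
  have hPd : ∀ h ∈ Icc a b, HasDerivAt (fun h => ((etz h / q1 h : ℝ) : ℂ) * e h)
      (((G h : ℝ) : ℂ) * e h - I * ((etz h : ℂ) * e h)) h := by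
    intro h hh
    have h0 : HasDerivAt (fun h => etz h / q1 h) (G h) h := (dz h).div (dq1 h hh) (q1n h hh)
    have h1 := h0.ofReal_comp.mul (hed h hh)
    refine h1.congr_deriv ?_
    have h3 : (q1 h : ℂ) ≠ 0 := by exact_mod_cast q1n h hh
    push_cast
    field_simp
    ring
  have cq1 : ContinuousOn q1 (Icc a b) := fun h hh => (dq1 h hh).continuousAt.continuousWithinAt
  have cq2 : ContinuousOn q2 (Icc a b) := by
    simp only [hq2]
    refine (continuousOn_const.mul (ContinuousOn.div continuousOn_const ?_ ?_)).neg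
    · exact Continuous.continuousOn (by fun_prop)
    · exact fun h hh => (pow_pos (hk0 h hh) 3).ne'
  have ce : ContinuousOn e (Icc a b) := fun h hh => (hed h hh).continuousAt.continuousWithinAt
  have cG : ContinuousOn G (Icc a b) := by
    simp only [hG]
    refine ContinuousOn.div ((cz.continuousOn.mul cq1).sub
      (cd_etz.continuous.continuousOn.mul cq2)) (cq1.pow 2) ?_
    exact fun h hh => pow_ne_zero 2 (q1n h hh)
  have i1 : IntervalIntegrable (fun h => ((G h : ℝ) : ℂ) * e h) volume a b := by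
    apply ContinuousOn.intervalIntegrable
    rw [hu]
    exact (Complex.continuous_ofReal.comp_continuousOn cG).mul ce
  have i2 : IntervalIntegrable (fun h => (etz h : ℂ) * e h) volume a b := by
    apply ContinuousOn.intervalIntegrable
    rw [hu]
    exact (Complex.continuous_ofReal.comp_continuousOn cd_etz.continuous.continuousOn).mul ce
  have key := intervalIntegral.integral_eq_sub_of_hasDerivAt
    (fun h hh => hPd h (hu ▸ hh)) (i1.sub (i2.const_mul I))
  have za : etz a = 0 := etz_zero_left le_rfl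
  have zb : etz b = 0 := etz_zero_right le_rfl
  rw [intervalIntegral.integral_sub i1 (i2.const_mul I), intervalIntegral.integral_const_mul,
    za, zb] at key
  simp only [zero_div, Complex.ofReal_zero, zero_mul, sub_self] at key
  have k2 : ∫ h in a..b, (etz h : ℂ) * e h = -I * ∫ h in a..b, ((G h : ℝ) : ℂ) * e h := by
    have hI := Complex.I_mul_I
    linear_combination I * key + (∫ h in a..b, (etz h : ℂ) * e h) * hI
  have k3 : ∫ h in a..b, (etz h : ℂ) * cexp (-(I * ((√(1 - h ^ 2) * w + h * t : ℝ) : ℂ))) =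
      ∫ h in a..b, (etz h : ℂ) * e h := rfl
  rw [k3, k2, norm_mul, norm_neg, Complex.norm_I, one_mul]
  have hGb : ∀ h ∈ Icc a b, ‖((G h : ℝ) : ℂ) * e h‖ ≤ (2 * C0 + 16 / 3) / |t| := by
    intro h hh
    rw [norm_mul, norm_exI, mul_one, Complex.norm_real, Real.norm_eq_abs]
    have h1 := bq1 h hh
    have h2 := bq2 h hh
    have h3 := hC0 h hh
    have hC00 : 0 ≤ C0 := (abs_nonneg _).trans h3
    have hq0 : 0 < |q1 h| := by linarith
    simp only [hG]
    rw [abs_div, abs_pow]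
    have h4 : |deriv etz h * q1 h - etz h * q2 h| ≤ C0 * |q1 h| + 4 / 3 * |t| := by
      refine (abs_sub _ _).trans (add_le_add ?_ ?_)
      · rw [abs_mul]
        exact mul_le_mul_of_nonneg_right h3 (abs_nonneg _)
      · rw [abs_mul, abs_of_nonneg (etz_nonneg h)]
        calc etz h * |q2 h| ≤ 1 * |q2 h| :=
              mul_le_mul_of_nonneg_right (etz_le_one h) (abs_nonneg _)
          _ ≤ 4 / 3 * |t| := by linarith
    rw [div_le_div_iff₀ (by positivity) ht0]
    generalize |q1 h| = Q at *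
    generalize |t| = T at *
    have h5 : |deriv etz h * q1 h - etz h * q2 h| * T ≤ (C0 * Q + 4 / 3 * T) * T :=
      mul_le_mul_of_nonneg_right h4 ht0.le
    have h6 : T ≤ 2 * Q := by linarith
    have h7 : C0 * Q * T ≤ C0 * Q * (2 * Q) := mul_le_mul_of_nonneg_left h6 (by positivity)
    have h8 : T * T ≤ (2 * Q) * (2 * Q) := mul_self_le_mul_self ht0.le h6
    nlinarith
  have k4 := intervalIntegral.norm_integral_le_of_norm_le_const (a := a) (b := b)
    (f := fun h => ((G h : ℝ) : ℂ) * e h) (C := (2 * C0 + 16 / 3) / |t|) (by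
      intro h hh
      rw [uIoc_of_le hab] at hh
      exact hGb h ⟨hh.1.le, hh.2⟩)
  have k5 : |b - a| = 3 / 2 := by rw [ha, hb]; norm_num
  rw [k5] at k4
  refine k4.trans (le_of_eq ?_)
  ring

theorem nonZ : NonZ := by
  have cz : Continuous (deriv etz) := ((contDiff_infty_iff_deriv.1 cd_etz).2).continuous
  obtain ⟨C0, hC0⟩ := (isCompact_Icc (a := (-(3 / 4) : ℝ)) (b := 3 / 4)).exists_bound_of_continuousOn
    cz.continuousOn
  have h0 : 0 ≤ C0 := (norm_nonneg _).trans (hC0 0 ⟨by norm_num, by norm_num⟩)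
  refine ⟨2 * (3 * C0 + 8), by positivity, fun t w => (trivial_bd t w).trans (by linarith), ?_⟩
  intro t w hw
  rcases lt_or_ge |t| 1 with ht | ht
  · have h1 := trivial_bd t w
    have h2 := abs_nonneg t
    rw [le_div_iff₀ (by positivity)]
    nlinarith [norm_nonneg (KZ t w)]
  · have h1 := non_bd (C0 := C0) (fun h hh => hC0 h hh) ht hw
    refine h1.trans ?_
    have ht0 : 0 < |t| := by linarith
    rw [div_le_div_iff₀ ht0 (by positivity)]
    have : 0 ≤ 3 * C0 + 8 := by positivity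
    nlinarith

end Pool.Agent.TH620.MZ
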