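import Mathlib
import Pool.Agent.TH407.MZ.Defs
import Pool.Agent.TH367.MV.StatA
import Pool.Agent.TH620.MZ.Non
set_option autoImplicit false

namespace Pool.Agent.TH620.MZ

open MeasureTheory Set Complex
open scoped ENNReal NNReal Real ComplexConjugate ContDiff Topology
open Pool.Agent.TH407 Pool.Agent.TH407.MZ

/-- the points `(h, y, ε)` with `|h| < 1` and `0 < y` -/
def U : Set (ℝ × ℝ × ℝ) := {p | p.1 ^ 2 < 1 ∧ 0 < p.2.1}

theorem isOpen_U : IsOpen U :=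
  (isOpen_lt (continuous_fst.pow 2) continuous_const).inter
    (isOpen_lt continuous_const (continuous_fst.comp continuous_snd))

/-- partial derivative in the height -/
noncomputable def dr (f : ℝ × ℝ × ℝ → ℝ) (p : ℝ × ℝ × ℝ) : ℝ := fderiv ℝ f p (1, 0, 0)

/-- partial derivative in the position -/
noncomputable def dy (f : ℝ × ℝ × ℝ → ℝ) (p : ℝ × ℝ × ℝ) : ℝ := fderiv ℝ f p (0, 1, 0)

theorem cd_dr {f : ℝ × ℝ × ℝ → ℝ} (hf : ContDiffOn ℝ ∞ f U) : ContDiffOn ℝ ∞ (dr f) U :=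
  (hf.fderiv_of_isOpen isOpen_U (by simp)).clm_apply contDiffOn_const

theorem cd_dy {f : ℝ × ℝ × ℝ → ℝ} (hf : ContDiffOn ℝ ∞ f U) : ContDiffOn ℝ ∞ (dy f) U :=
  (hf.fderiv_of_isOpen isOpen_U (by simp)).clm_apply contDiffOn_const

theorem hd_r {f : ℝ × ℝ × ℝ → ℝ} (hf : ContDiffOn ℝ ∞ f U) {r y ε : ℝ} (hp : (r, y, ε) ∈ U) :
    HasDerivAt (fun r => f (r, y, ε)) (dr f (r, y, ε)) r := by
  have h1 : HasFDerivAt f (fderiv ℝ f (r, y, ε)) (r, y, ε) :=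
    ((hf.contDiffAt (isOpen_U.mem_nhds hp)).differentiableAt (by simp)).hasFDerivAt
  have h2 : HasDerivAt (fun r : ℝ => (r, y, ε)) (1, 0, 0) r :=
    (hasDerivAt_id r).prodMk (hasDerivAt_const r (y, ε))
  exact h1.comp_hasDerivAt r h2

theorem hd_y {f : ℝ × ℝ × ℝ → ℝ} (hf : ContDiffOn ℝ ∞ f U) {r y ε : ℝ} (hp : (r, y, ε) ∈ U) :
    HasDerivAt (fun y => f (r, y, ε)) (dy f (r, y, ε)) y := by
  have h1 : HasFDerivAt f (fderiv ℝ f (r, y, ε)) (r, y, ε) :=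
    ((hf.contDiffAt (isOpen_U.mem_nhds hp)).differentiableAt (by simp)).hasFDerivAt
  have h2 : HasDerivAt (fun y : ℝ => (r, y, ε)) (0, 1, 0) y :=
    (hasDerivAt_const y r).prodMk ((hasDerivAt_id y).prodMk (hasDerivAt_const y ε))
  exact h1.comp_hasDerivAt y h2

/-- functions vanishing off `[-3/4, 3/4]` -/
def Sup (f : ℝ × ℝ × ℝ → ℝ) : Prop := ∀ p ∈ U, p.1 ∉ Icc (-(3 / 4) : ℝ) (3 / 4) → f p = 0

theorem sup_fd {f : ℝ × ℝ × ℝ → ℝ} (hf : Sup f) (p : ℝ × ℝ × ℝ) (hp : p ∈ U)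
    (h : p.1 ∉ Icc (-(3 / 4) : ℝ) (3 / 4)) : fderiv ℝ f p = 0 := by
  have hO : IsOpen (U ∩ {p : ℝ × ℝ × ℝ | p.1 ∉ Icc (-(3 / 4) : ℝ) (3 / 4)}) :=
    isOpen_U.inter (isClosed_Icc.preimage continuous_fst).isOpen_compl
  have : f =ᶠ[𝓝 p] fun _ => (0 : ℝ) := by
    filter_upwards [hO.mem_nhds ⟨hp, h⟩] with q hq
    exact hf q hq.1 hq.2
  rw [this.fderiv_eq]
  simp

theorem sup_dr {f : ℝ × ℝ × ℝ → ℝ} (hf : Sup f) : Sup (dr f) := by
  intro p hp h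
  simp [dr, sup_fd hf p hp h]

theorem sup_dy {f : ℝ × ℝ × ℝ → ℝ} (hf : Sup f) : Sup (dy f) := by
  intro p hp h
  simp [dy, sup_fd hf p hp h]

/-- `√(1 - h²)` -/
noncomputable def kk (p : ℝ × ℝ × ℝ) : ℝ := √(1 - p.1 ^ 2)

/-- `√(y² + ε²)` -/
noncomputable def rho (p : ℝ × ℝ × ℝ) : ℝ := √(p.2.1 ^ 2 + p.2.2 ^ 2)

theorem kk_pos {p : ℝ × ℝ × ℝ} (hp : p ∈ U) : 0 < kk p :=
  Real.sqrt_pos.2 (by have := hp.1; linarith)

theorem rho_pos {p : ℝ × ℝ × ℝ} (hp : p ∈ U) : 0 < rho p :=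
  Real.sqrt_pos.2 (by have := hp.2; positivity)

theorem kk_sq {p : ℝ × ℝ × ℝ} (hp : p ∈ U) : kk p ^ 2 = 1 - p.1 ^ 2 :=
  Real.sq_sqrt (by have := hp.1; linarith)

theorem rho_sq (p : ℝ × ℝ × ℝ) : rho p ^ 2 = p.2.1 ^ 2 + p.2.2 ^ 2 :=
  Real.sq_sqrt (by positivity)

theorem cd_kk : ContDiffOn ℝ ∞ kk U := by
  unfold kk
  exact ContDiffOn.sqrt (ContDiff.contDiffOn (by fun_prop)) (fun p hp => by
    have := hp.1
    exact (by linarith : (0 : ℝ) < 1 - p.1 ^ 2).ne')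

theorem cd_rho : ContDiffOn ℝ ∞ rho U := by
  unfold rho
  exact ContDiffOn.sqrt (ContDiff.contDiffOn (by fun_prop)) (fun p hp => by
    have := hp.2
    positivity)

/-- the denominator `ρ + y k + ε h` -/
noncomputable def den (p : ℝ × ℝ × ℝ) : ℝ := rho p + p.2.1 * kk p + p.2.2 * p.1

theorem den_pos {p : ℝ × ℝ × ℝ} (hp : p ∈ U) : 0 < den p := by
  have h1 := kk_pos hp
  have h2 := rho_pos hp
  have h3 : p.1 ^ 2 < 1 := hp.1
  have h4 : 0 < p.2.1 := hp.2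
  have h5 := rho_sq p
  have h6 : |p.1| ≤ 1 := by
    rw [← sq_le_one_iff_abs_le_one]; exact h3.le
  have h7 : |p.2.2| ≤ rho p := Real.abs_le_sqrt (by nlinarith [sq_nonneg p.2.1])
  have h8 : |p.2.2 * p.1| ≤ rho p := by
    rw [abs_mul]
    calc |p.2.2| * |p.1| ≤ |p.2.2| * 1 := mul_le_mul_of_nonneg_left h6 (abs_nonneg _)
      _ ≤ rho p := by linarith
  have h9 := (abs_le.1 h8).1
  have h10 : 0 < p.2.1 * kk p := mul_pos h4 h1
  unfold den
  linarith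

theorem cd_den : ContDiffOn ℝ ∞ den U := by
  unfold den
  have h1 := cd_kk
  have h2 := cd_rho
  refine (h2.add (ContDiffOn.mul (ContDiff.contDiffOn (by fun_prop)) h1)).add
    (ContDiff.contDiffOn (by fun_prop))

/-- minus the phase, normalised to vanish at the stationary point -/
noncomputable def Em (p : ℝ × ℝ × ℝ) : ℝ := p.2.1 * kk p + p.1 * p.2.2 - rho p

theorem cd_Em : ContDiffOn ℝ ∞ Em U := by
  unfold Em
  have h1 := cd_kk
  have h2 := cd_rho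
  exact ((ContDiffOn.mul (ContDiff.contDiffOn (by fun_prop)) h1).add
    (ContDiff.contDiffOn (by fun_prop))).sub h2

/-- the quotient `(h - h₀) / E_h` -/
noncomputable def Kq (p : ℝ × ℝ × ℝ) : ℝ := -(kk p * (kk p + p.2.1 / rho p) / den p)

theorem cd_Kq : ContDiffOn ℝ ∞ Kq U := by
  unfold Kq
  have h1 := cd_kk
  have h2 := cd_rho
  have h3 := cd_den
  refine ((h1.mul (h1.add (ContDiffOn.div (ContDiff.contDiffOn (by fun_prop)) h2 ?_))).div h3 ?_).neg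
  · exact fun p hp => (rho_pos hp).ne'
  · exact fun p hp => (den_pos hp).ne'

theorem Kq_ne {p : ℝ × ℝ × ℝ} (hp : p ∈ U) : Kq p ≠ 0 := by
  unfold Kq
  have h1 := kk_pos hp
  have h2 := rho_pos hp
  have h3 := den_pos hp
  have h4 : 0 < p.2.1 := hp.2
  have : 0 < kk p * (kk p + p.2.1 / rho p) / den p := by positivity
  exact neg_ne_zero.2 this.ne'

/-- `m = -E_y / E_h` -/
noncomputable def mm (p : ℝ × ℝ × ℝ) : ℝ := -(kk p * (p.1 + p.2.2 / rho p) / den p)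

theorem cd_mm : ContDiffOn ℝ ∞ mm U := by
  unfold mm
  have h1 := cd_kk
  have h2 := cd_rho
  have h3 := cd_den
  refine ((h1.mul (ContDiffOn.add (ContDiff.contDiffOn (by fun_prop))
    (ContDiffOn.div (ContDiff.contDiffOn (by fun_prop)) h2 ?_))).div h3 ?_).neg
  · exact fun p hp => (rho_pos hp).ne'
  · exact fun p hp => (den_pos hp).ne'

theorem hd_Er {r y ε : ℝ} (hp : (r, y, ε) ∈ U) :
    HasDerivAt (fun r => Em (r, y, ε)) ((r - ε / rho (r, y, ε)) / Kq (r, y, ε)) r := by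
  have h0 : 0 < 1 - r ^ 2 := by have := hp.1; simp only at this; linarith
  have h1 : HasDerivAt (fun r => Em (r, y, ε)) _ r :=
    (((hd_k h0).const_mul y).add ((hasDerivAt_id r).mul_const ε)).sub_const (rho (r, y, ε))
  refine h1.congr_deriv ?_
  have h2 := kk_pos hp
  have h3 := rho_pos hp
  have h4 := den_pos hp
  have h5 : kk (r, y, ε) ^ 2 = 1 - r ^ 2 := kk_sq hp
  have h6 : rho (r, y, ε) ^ 2 = y ^ 2 + ε ^ 2 := rho_sq _
  have h7 : 0 < y := hp.2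
  have e1 : √(1 - r ^ 2) = kk (r, y, ε) := rfl
  have e2 : den (r, y, ε) = rho (r, y, ε) + y * kk (r, y, ε) + ε * r := rfl
  have e3 : Kq (r, y, ε) = -(kk (r, y, ε) * (kk (r, y, ε) + y / rho (r, y, ε)) / den (r, y, ε)) := rfl
  rw [e1, e3]
  rw [e2] at h4 ⊢
  generalize kk (r, y, ε) = k at *
  generalize rho (r, y, ε) = s at *
  have h8 : 0 < k * s + y := by positivity
  field_simp
  linear_combination r * h6 + ε * s * h5

theorem hd_Ey {r y ε : ℝ} (hp : (r, y, ε) ∈ U) :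
    HasDerivAt (fun y => Em (r, y, ε))
      (-(mm (r, y, ε) * ((r - ε / rho (r, y, ε)) / Kq (r, y, ε)))) y := by
  have h7 : 0 < y := hp.2
  have h0 : 0 < y ^ 2 + ε ^ 2 := by positivity
  have ha : HasDerivAt (fun y : ℝ => y ^ 2 + ε ^ 2) (2 * y) y := by
    have := (hasDerivAt_pow 2 y).add_const (ε ^ 2)
    simpa using this
  have hb := ha.sqrt h0.ne'
  have h1 : HasDerivAt (fun y => Em (r, y, ε)) _ y :=
    (((hasDerivAt_id y).mul_const (kk (r, y, ε))).add_const (r * ε)).sub hb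
  refine h1.congr_deriv ?_
  have h2 := kk_pos hp
  have h3 := rho_pos hp
  have h4 := den_pos hp
  have h5 : kk (r, y, ε) ^ 2 = 1 - r ^ 2 := kk_sq hp
  have h6 : rho (r, y, ε) ^ 2 = y ^ 2 + ε ^ 2 := rho_sq _
  have e1 : √(y ^ 2 + ε ^ 2) = rho (r, y, ε) := rfl
  have e2 : den (r, y, ε) = rho (r, y, ε) + y * kk (r, y, ε) + ε * r := rfl
  have e3 : Kq (r, y, ε) = -(kk (r, y, ε) * (kk (r, y, ε) + y / rho (r, y, ε)) / den (r, y, ε)) := rfl
  have e4 : mm (r, y, ε) = -(kk (r, y, ε) * (r + ε / rho (r, y, ε)) / den (r, y, ε)) := rfl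
  rw [e1, e3, e4]
  rw [e2] at h4 ⊢
  generalize kk (r, y, ε) = k at *
  generalize rho (r, y, ε) = s at *
  have h8 : 0 < k * s + y := by positivity
  have h9 : s + k * y + r * ε ≠ 0 := by
    intro h
    apply h4.ne'
    linear_combination h
  field_simp
  linear_combination s ^ 2 * h5 + h6

/-- the new amplitude -/
noncomputable def Dm (f : ℝ × ℝ × ℝ → ℝ) (p : ℝ × ℝ × ℝ) : ℝ := dy f p + dr (fun p => f p * mm p) p

theorem cd_Dm {f : ℝ × ℝ × ℝ → ℝ} (hf : ContDiffOn ℝ ∞ f U) : ContDiffOn ℝ ∞ (Dm f) U :=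
  (cd_dy hf).add (cd_dr (hf.mul cd_mm))

theorem sup_Dm {f : ℝ × ℝ × ℝ → ℝ} (hf : Sup f) : Sup (Dm f) := by
  intro p hp h
  have h1 : Sup fun p => f p * mm p := by
    intro q hq h'
    simp only [hf q hq h', zero_mul]
  simp only [Dm, sup_dy hf p hp h, sup_dr h1 p hp h, add_zero]

/-- the oscillatory integral -/
noncomputable def J (f : ℝ × ℝ × ℝ → ℝ) (ε t y : ℝ) : ℂ :=
  ∫ r in (-(4 / 5) : ℝ)..(4 / 5), (f (r, y, ε) : ℂ) * cexp (-(I * ((t * Em (r, y, ε) : ℝ) : ℂ)))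

end Pool.Agent.TH620.MZ
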