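import Mathlib
import Pool.Agent.TH407.MZ.Defs
import Pool.Agent.TH367.MV.StatA
import Pool.Agent.TH620.MZ.StatC
set_option autoImplicit false

namespace Pool.Agent.TH620.MZ

open MeasureTheory Set Complex
open scoped ENNReal NNReal Real ComplexConjugate ContDiff Topology
open Pool.Agent.TH407 Pool.Agent.TH407.MZ
open Pool.Agent.TH407.MV (AC)

/-- the amplitude -/
noncomputable def h0 (p : ℝ × ℝ × ℝ) : ℝ := etz p.1

theorem cd_h0 : ContDiffOn ℝ ∞ h0 U := by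
  unfold h0
  exact (cd_etz.comp contDiff_fst).contDiffOn

theorem sup_h0 : Sup h0 := by
  intro p _ h
  exact etz_zero h

theorem KZ_eq (ε t y : ℝ) :
    KZ (t * ε) (t * y) = cexp (-(I * ((t * phz ε y : ℝ) : ℂ))) * J h0 ε t y := by
  unfold KZ J
  rw [int_etz (4 / 5) (by norm_num), ← intervalIntegral.integral_const_mul]
  congr 1
  ext r
  have e1 : h0 (r, y, ε) = etz r := rfl
  rw [e1, mul_left_comm (cexp (-(I * ((t * phz ε y : ℝ) : ℂ)))) ((etz r : ℝ) : ℂ), ← Complex.exp_add]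
  congr 2
  have e2 : Em (r, y, ε) = y * √(1 - r ^ 2) + r * ε - phz ε y := rfl
  rw [e2]
  push_cast
  ring

theorem cd_czz : ContDiff ℝ ∞ czz := by
  unfold czz
  exact Real.smoothTransition.contDiff.comp (by fun_prop)

theorem cd_psz : ContDiff ℝ ∞ psz := by
  unfold psz
  exact cd_czz.sub (cd_czz.comp (by fun_prop))

theorem psz_zero {y : ℝ} (h : y ∉ Icc (1 / 2 : ℝ) 2) : psz y = 0 := by
  unfold psz czz
  rw [mem_Icc, not_and_or, not_le, not_le] at h
  rcases h with h | h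
  · rw [Real.smoothTransition.one_of_one_le (by linarith),
      Real.smoothTransition.one_of_one_le (by linarith), sub_self]
  · rw [Real.smoothTransition.zero_of_nonpos (by linarith),
      Real.smoothTransition.zero_of_nonpos (by linarith), sub_self]

theorem psz_abs (y : ℝ) : |psz y| ≤ 1 := by
  unfold psz czz
  have h1 := Real.smoothTransition.nonneg (2 - y)
  have h2 := Real.smoothTransition.nonneg (2 - 2 * y)
  have h3 := Real.smoothTransition.le_one (2 - y)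
  have h4 := Real.smoothTransition.le_one (2 - 2 * y)
  rw [abs_le]
  constructor <;> linarith

theorem deriv_zero_off {f : ℝ → ℝ} (hf : ∀ y, y ∉ Icc (1 / 2 : ℝ) 2 → f y = 0) (y : ℝ)
    (h : y ∉ Icc (1 / 2 : ℝ) 2) : deriv f y = 0 := by
  have hO : IsOpen (Icc (1 / 2 : ℝ) 2)ᶜ := isClosed_Icc.isOpen_compl
  have : f =ᶠ[𝓝 y] fun _ => (0 : ℝ) := by
    filter_upwards [hO.mem_nhds h] with q hq
    exact hf q hq
  rw [this.deriv_eq]
  simp

theorem bd_off {f : ℝ → ℝ} (hc : Continuous f) (hf : ∀ y, y ∉ Icc (1 / 2 : ℝ) 2 → f y = 0) :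
    ∃ C : ℝ, 0 ≤ C ∧ ∀ y, |f y| ≤ C := by
  obtain ⟨C, hC⟩ := (isCompact_Icc (a := (1 / 2 : ℝ)) (b := 2)).exists_bound_of_continuousOn
    hc.continuousOn
  refine ⟨max C 0, le_max_right _ _, fun y => ?_⟩
  by_cases h : y ∈ Icc (1 / 2 : ℝ) 2
  · exact (hC y h).trans (le_max_left _ _)
  · rw [hf y h, abs_zero]
    exact le_max_right _ _

/-- gluing with `0` -/
theorem glue_hd {F F' : ℝ → ℂ}
    (h0 : ∀ y, y < 1 / 2 → F y = 0 ∧ F' y = 0) (h1 : ∀ y, 0 < y → HasDerivAt F (F' y) y) (y : ℝ) :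
    HasDerivAt F (F' y) y := by
  rcases lt_or_ge y (1 / 2) with h | h
  · rw [(h0 y h).2]
    have : F =ᶠ[𝓝 y] fun _ => (0 : ℂ) := by
      filter_upwards [Iio_mem_nhds h] with q hq
      exact (h0 q hq).1
    exact (hasDerivAt_const y (0 : ℂ)).congr_of_eventuallyEq this
  · exact h1 y (by linarith)

theorem statZ : StatZ := by
  have c0 : ContDiffOn ℝ ∞ h0 U := cd_h0
  have c1 := cd_Dm c0
  have c2 := cd_Dm c1
  have s0 := sup_h0
  have s1 := sup_Dm s0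
  have s2 := sup_Dm s1
  obtain ⟨CJ0, p0, B0⟩ := J_bound c0 s0
  obtain ⟨CJ1, p1, B1⟩ := J_bound c1 s1
  obtain ⟨CJ2, p2, B2⟩ := J_bound c2 s2
  have dX : ContDiff ℝ ∞ (deriv psz) := (contDiff_infty_iff_deriv.1 cd_psz).2
  have dX2 : ContDiff ℝ ∞ (deriv (deriv psz)) := (contDiff_infty_iff_deriv.1 dX).2
  have zX : ∀ y, y ∉ Icc (1 / 2 : ℝ) 2 → psz y = 0 := fun y h => psz_zero h
  have zX1 := deriv_zero_off zX
  have zX2 := deriv_zero_off zX1
  obtain ⟨x1, px1, bx1⟩ := bd_off dX.continuous zX1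
  obtain ⟨x2, px2, bx2⟩ := bd_off dX2.continuous zX2
  set C : ℝ := (1 + 2 * x1 + x2) * (CJ0 + CJ1 + CJ2) + 1 with hC
  have hCpos : 0 < C := by positivity
  refine ⟨C, hCpos, ?_⟩
  intro t s ht hts
  have ht0 : 0 < t := by linarith
  have hst : 0 < √t := Real.sqrt_pos.2 ht0
  set ε : ℝ := s / t with hε
  have hs : s = t * ε := by rw [hε]; field_simp
  have hεb : |ε| ≤ 8 := by
    rw [hε, abs_div, abs_of_pos ht0, div_le_iff₀ ht0]
    exact hts
  have he : -8 ≤ ε := (abs_le.1 hεb).1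
  have hA : ε ≤ 8 := (abs_le.1 hεb).2
  set J0 := J h0 ε t with hJ0
  set J1 := J (Dm h0) ε t with hJ1
  set J2 := J (Dm (Dm h0)) ε t with hJ2
  set c : ℝ := C⁻¹ * √t with hc
  have hc0 : 0 < c := by positivity
  have hX : ∀ y, HasDerivAt (fun y => ((psz y : ℝ) : ℂ)) ((deriv psz y : ℝ) : ℂ) y := fun y =>
    ((cd_psz.differentiable (by simp)) y).hasDerivAt.ofReal_comp
  have hX1 : ∀ y, HasDerivAt (fun y => ((deriv psz y : ℝ) : ℂ)) ((deriv (deriv psz) y : ℝ) : ℂ) y :=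
    fun y => ((dX.differentiable (by simp)) y).hasDerivAt.ofReal_comp
  have d0 : ∀ y, 0 < y → HasDerivAt J0 (J1 y) y := fun y hy => hasDerivAt_J c0 s0 ε t hy
  have d1 : ∀ y, 0 < y → HasDerivAt J1 (J2 y) y := fun y hy => hasDerivAt_J c1 s1 ε t hy
  have d2 : ∀ y, 0 < y → HasDerivAt J2 (J (Dm (Dm (Dm h0))) ε t y) y :=
    fun y hy => hasDerivAt_J c2 s2 ε t hy
  have notin : ∀ y : ℝ, y < 1 / 2 → y ∉ Icc (1 / 2 : ℝ) 2 := fun y h h' => by linarith [h'.1]
  set A : ℝ → ℂ := fun y => (c : ℂ) * ((psz y : ℂ) * J0 y) with hAdef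
  set A1 : ℝ → ℂ := fun y => (c : ℂ) * (((deriv psz y : ℝ) : ℂ) * J0 y + (psz y : ℂ) * J1 y) with hA1
  set A2 : ℝ → ℂ := fun y => (c : ℂ) * ((((deriv (deriv psz) y : ℝ) : ℂ) * J0 y +
    ((deriv psz y : ℝ) : ℂ) * J1 y) +
    (((deriv psz y : ℝ) : ℂ) * J1 y + (psz y : ℂ) * J2 y)) with hA2
  have hz : ∀ y, y ∉ Icc (1 / 2 : ℝ) 2 → A y = 0 ∧ A1 y = 0 ∧ A2 y = 0 := by
    intro y h
    simp only [hAdef, hA1, hA2, zX y h, zX1 y h, zX2 y h]
    simp
  have hd0 : ∀ y, HasDerivAt A (A1 y) y := by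
    refine glue_hd (fun y h => ⟨(hz y (notin y h)).1, (hz y (notin y h)).2.1⟩) ?_
    intro y hy
    exact ((hX y).mul (d0 y hy)).const_mul (c : ℂ)
  have hd1 : ∀ y, HasDerivAt A1 (A2 y) y := by
    refine glue_hd (fun y h => ⟨(hz y (notin y h)).2.1, (hz y (notin y h)).2.2⟩) ?_
    intro y hy
    exact (((hX1 y).mul (d0 y hy)).add ((hX y).mul (d1 y hy))).const_mul (c : ℂ)
  have cA2 : Continuous A2 := by
    rw [continuous_iff_continuousAt]
    intro y
    rcases lt_or_ge y (1 / 2) with h | h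
    · have : A2 =ᶠ[𝓝 y] fun _ => (0 : ℂ) := by
        filter_upwards [Iio_mem_nhds h] with q hq
        exact (hz q (notin q hq)).2.2
      exact (continuousAt_const (y := (0 : ℂ))).congr this.symm
    · have hy : 0 < y := by linarith
      have k0 := (d0 y hy).continuousAt
      have k1 := (d1 y hy).continuousAt
      have k2 := (d2 y hy).continuousAt
      have l0 := (hX y).continuousAt
      have l1 := (hX1 y).continuousAt
      have l2 : ContinuousAt (fun y => ((deriv (deriv psz) y : ℝ) : ℂ)) y :=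
        (Complex.continuous_ofReal.comp dX2.continuous).continuousAt
      exact continuousAt_const.mul (((l2.mul k0).add (l1.mul k1)).add ((l1.mul k1).add (l0.mul k2)))
  have hcC : ∀ v : ℝ, c * (v / √t) = v / C := by
    intro v
    rw [hc]
    field_simp
  have nX : ∀ y, ‖(psz y : ℂ)‖ ≤ 1 := fun y => by
    rw [Complex.norm_real, Real.norm_eq_abs]
    exact psz_abs y
  have nX1 : ∀ y, ‖((deriv psz y : ℝ) : ℂ)‖ ≤ x1 := fun y => by
    rw [Complex.norm_real, Real.norm_eq_abs]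
    exact bx1 y
  have nX2 : ∀ y, ‖((deriv (deriv psz) y : ℝ) : ℂ)‖ ≤ x2 := fun y => by
    rw [Complex.norm_real, Real.norm_eq_abs]
    exact bx2 y
  have ncc : ‖(c : ℂ)‖ = c := by rw [Complex.norm_real, Real.norm_eq_abs, abs_of_pos hc0]
  have nmul : ∀ (a b : ℂ) (u v : ℝ), ‖a‖ ≤ u → ‖b‖ ≤ v / √t → 0 ≤ v → ‖a * b‖ ≤ u * v / √t := by
    intro a b u v ha hb hv
    rw [norm_mul, mul_div_assoc]
    exact mul_le_mul ha hb (norm_nonneg _) ((norm_nonneg _).trans ha)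
  have one_le : ∀ v : ℝ, v ≤ C → v / C ≤ 1 := fun v hv => (div_le_one hCpos).2 hv
  have fin : ∀ (z : ℂ) (v : ℝ), ‖z‖ ≤ v / √t → v ≤ C → ‖(c : ℂ) * z‖ ≤ 1 := by
    intro z v h1 h2
    rw [norm_mul, ncc]
    calc c * ‖z‖ ≤ c * (v / √t) := mul_le_mul_of_nonneg_left h1 hc0.le
      _ = v / C := hcC v
      _ ≤ 1 := one_le v h2
  have q0 : 0 ≤ x1 * CJ0 := by positivity
  have q1 : 0 ≤ x1 * CJ1 := by positivity
  have q2 : 0 ≤ x2 * CJ0 := by positivity
  have q3 : 0 ≤ x1 * CJ2 := by positivity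
  have q4 : 0 ≤ x2 * CJ1 := by positivity
  have q5 : 0 ≤ x2 * CJ2 := by positivity
  have hAC : AC A := by
    refine ⟨A1, A2, cA2, hd0, hd1, fun y => ?_⟩
    by_cases hy : y ∈ Icc (1 / 2 : ℝ) 2
    · have b0 : ‖J0 y‖ ≤ CJ0 / √t := B0 ε t y he hA ht0 hy
      have b1 : ‖J1 y‖ ≤ CJ1 / √t := B1 ε t y he hA ht0 hy
      have b2 : ‖J2 y‖ ≤ CJ2 / √t := B2 ε t y he hA ht0 hy
      have m00 := nmul _ _ _ _ (nX y) b0 p0
      have m01 := nmul _ _ _ _ (nX y) b1 p1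
      have m02 := nmul _ _ _ _ (nX y) b2 p2
      have m10 := nmul _ _ _ _ (nX1 y) b0 p0
      have m11 := nmul _ _ _ _ (nX1 y) b1 p1
      have m20 := nmul _ _ _ _ (nX2 y) b0 p0
      refine ⟨?_, ?_, ?_⟩
      · refine fin _ (1 * CJ0) m00 ?_
        rw [hC]; nlinarith
      · refine fin _ (x1 * CJ0 + 1 * CJ1) ?_ ?_
        · refine (norm_add_le _ _).trans ?_
          rw [add_div]
          exact add_le_add m10 m01
        · rw [hC]; nlinarith
      · refine fin _ ((x2 * CJ0 + x1 * CJ1) + (x1 * CJ1 + 1 * CJ2)) ?_ ?_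
        · rw [add_div, add_div, add_div]
          refine (norm_add_le _ _).trans (add_le_add ?_ ?_)
          · exact (norm_add_le _ _).trans (add_le_add m20 m11)
          · exact (norm_add_le _ _).trans (add_le_add m11 m02)
        · rw [hC]; nlinarith
    · obtain ⟨z0, z1, z2⟩ := hz y hy
      rw [z0, z1, z2]
      simp
  refine ⟨A, hAC, fun y hy => (hz y hy).1, fun y => ?_⟩
  have e2 : C * t ^ (-(1 / 2) : ℝ) * c = 1 := by
    rw [hc, Real.rpow_neg ht0.le, ← Real.sqrt_eq_rpow]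
    field_simp
  have e3 : ((C * t ^ (-(1 / 2) : ℝ) : ℝ) : ℂ) * (c : ℂ) = 1 := by
    rw [← Complex.ofReal_mul, e2, Complex.ofReal_one]
  rw [hs, KZ_eq]
  simp only [hAdef]
  calc cexp (-(I * ((t * phz ε y : ℝ) : ℂ))) * J h0 ε t y * (psz y : ℂ)
      = 1 * (cexp (-(I * ((t * phz ε y : ℝ) : ℂ))) * ((psz y : ℂ) * J0 y)) := by
        rw [hJ0]; ring
    _ = (((C * t ^ (-(1 / 2) : ℝ) : ℝ) : ℂ) * (c : ℂ)) *
          (cexp (-(I * ((t * phz ε y : ℝ) : ℂ))) * ((psz y : ℂ) * J0 y)) := by rw [e3]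
    _ = _ := by ring

end Pool.Agent.TH620.MZ
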